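import Pool.Agent.CGL.Fin

/-!
# A blowup criterion weaker than negative energy (MP_78fff0_an)

For every dimension `N ≥ 1`, every `α > 0` with `(N - 2) α ≤ 4` and every `0 ≤ θ < π/2` there is a
constant `κ > 2 / (α + 2)`, independent of `γ ≥ 0` and of the datum, such that no datum
`u₀ ∈ C₀ ∩ H¹` with `∫ |∇u₀|² - κ ∫ |u₀|^(α+2) < 0` has a global solution.
-/

open MeasureTheory Set Filter Topology

namespace Pool.Agent.Results.MP_78fff0_an.BlowupCriterion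

open CGL

theorem result (N : ℕ) (hN : 1 ≤ N) (α θ : ℝ) (hα : 0 < α) (hcrit : ((N:ℝ) - 2) * α ≤ 4)
    (hθ : 0 ≤ θ) (hθ' : θ < Real.pi / 2) :
    ∃ κ : ℝ, 2 / (α + 2) < κ ∧ ∀ γ : ℝ, 0 ≤ γ →
      ∀ (u0 : ZeroAtInftyContinuousMap (E N) ℂ) (g : Fin N → E N → ℂ),
        MemLp u0 2 volume → (∀ i, MemLp (g i) 2 volume) → (∀ i, IsWeakDeriv u0 (g i) i) →
        (∑ i, ∫ x, ‖g i x‖ ^ 2) - κ * (∫ x, ‖u0 x‖ ^ (α + 2)) < 0 →
        ¬ ∃ u : ℝ → ZeroAtInftyContinuousMap (E N) ℂ, IsGlobalMild N α θ γ u0 u :=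
  main_thm N hN α θ hα hcrit hθ hθ'

end Pool.Agent.Results.MP_78fff0_an.BlowupCriterion
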